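import Pool.Agent.H40.PMF.PW

/-!
# MP_def5ca_co: cubes (rows CUG, CUC of the board pmf_modules)
-/

set_option autoImplicit false

open Pool.Agent.H54.PM

open scoped symmDiff

namespace Pool.Agent.H40.PMF

section

variable {p : ℕ} [NeZero p]

theorem mem_cube {a b g : Wd p} : g ∈ cube a b ↔ ∀ i, g i = a i ∨ g i = b i := by
  unfold cube
  rw [Fintype.mem_piFinset]
  simp

theorem prod_cube (a b : Wd p) (i : Fin p) : ∀ g ∈ cube a b, ∀ h ∈ cube a b, ag2 i g h →
    Function.update g i (h i) ∈ cube a b := by
  intro g hg h hh _
  rw [mem_cube] at hg hh ⊢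
  intro t
  by_cases ht : t = i
  · subst ht
    rw [Function.update_self]
    exact hh t
  · rw [Function.update_of_ne ht]
    exact hg t

theorem lin_cube (a b : Wd p) (hab : ∀ i, a i ≠ b i) : Lin (cube a b) := by
  intro i g hg
  have hg' := mem_cube.1 hg
  refine ⟨Function.update g i (if g i = a i then b i else a i), ?_, ?_, ag_update _ _ _, ?_⟩
  · rw [mem_cube]
    intro t
    by_cases ht : t = i
    · subst ht
      rw [Function.update_self]
      split_ifs
      · exact Or.inr rfl
      · exact Or.inl rfl
    · rw [Function.update_of_ne ht]
      exact hg' t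
  · intro e
    have := congrFun e i
    rw [Function.update_self] at this
    split_ifs at this with h
    · exact hab i (h ▸ this.symm)
    · exact h this.symm
  · intro k hk hgk
    have hk' := mem_cube.1 hk i
    have e := eq_update_of_ag hgk
    by_cases hki : k i = g i
    · left
      rw [e]
      exact update_eq_self hki
    · right
      rw [e]
      have : k i = if g i = a i then b i else a i := by
        split_ifs with h
        · rcases hk' with h' | h'
          · exact absurd (h'.trans h.symm) hki
          · exact h'
        · rcases hk' with h' | h'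
          · exact h'
          · rcases hg' i with h'' | h''
            · exact absurd h'' h
            · exact absurd (h'.trans h''.symm) hki
      rw [← this]

theorem conn_cube (a b : Wd p) (h : Wd p) (hh : h ∈ cube a b) : ∀ (n : ℕ) (g : Wd p),
    g ∈ cube a b → (Finset.univ.filter fun t => g t ≠ h t).card ≤ n →
    Relation.ReflTransGen (mv (cube a b)) g h := by
  intro n
  induction n with
  | zero =>
    intro g hg hs
    have : g = h := by
      funext t
      by_contra hne
      have h1 : t ∈ Finset.univ.filter fun t => g t ≠ h t := by simp [hne]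
      have h2 := Finset.card_pos.2 ⟨t, h1⟩
      omega
    subst this
    exact Relation.ReflTransGen.refl
  | succ n ih =>
    intro g hg hs
    by_cases he : g = h
    · subst he
      exact Relation.ReflTransGen.refl
    · obtain ⟨i, hi⟩ : ∃ i, g i ≠ h i := by
        by_contra hcon
        push Not at hcon
        exact he (funext hcon)
      have hmem : Function.update g i (h i) ∈ cube a b := by
        rw [mem_cube] at hg hh ⊢
        intro t
        by_cases ht : t = i
        · subst ht
          rw [Function.update_self]
          exact hh t
        · rw [Function.update_of_ne ht]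
          exact hg t
      have hlt : (Finset.univ.filter fun t => Function.update g i (h i) t ≠ h t).card <
          (Finset.univ.filter fun t => g t ≠ h t).card := by
        apply Finset.card_lt_card
        rw [Finset.ssubset_iff_of_subset]
        · refine ⟨i, by simp [hi], ?_⟩
          simp
        · intro t ht
          rw [Finset.mem_filter] at ht ⊢
          refine ⟨Finset.mem_univ _, ?_⟩
          have h2 := ht.2
          by_cases hti : t = i
          · subst hti
            exact hi
          · rwa [Function.update_of_ne hti] at h2
      have s1 : mv (cube a b) g (Function.update g i (h i)) := ⟨hmem, i, ag_update i g (h i)⟩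
      exact Relation.ReflTransGen.head s1 (ih _ hmem (by omega))

theorem bip_cube (a b : Wd p) : Bip (cube a b) := by
  refine ⟨fun g => decide (Odd (Finset.univ.filter fun t => g t = b t).card), ?_⟩
  rintro g hg h hh hne ⟨i, hag⟩ hc
  rw [mem_cube] at hg hh
  have hgi : g i ≠ h i := by
    intro e
    apply hne
    funext t
    by_cases ht : t = i
    · subst ht
      exact e
    · exact hag t ht
  have hsplit : ∀ k : Wd p, (Finset.univ.filter fun t => k t = b t).card =
      (Finset.univ.filter fun t => k t = b t ∧ t ≠ i).card + (if k i = b i then 1 else 0) := by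
    intro k
    rw [← Finset.card_filter_add_card_filter_not (s := Finset.univ.filter fun t => k t = b t)
      (fun t => t ≠ i), Finset.filter_filter, Finset.filter_filter]
    congr 1
    split_ifs with hk
    · rw [Finset.card_eq_one]
      refine ⟨i, ?_⟩
      ext t
      simp only [Finset.mem_filter, Finset.mem_univ, true_and, not_not, Finset.mem_singleton]
      constructor
      · rintro ⟨_, h2⟩
        exact h2
      · rintro rfl
        exact ⟨hk, rfl⟩
    · rw [Finset.card_eq_zero, Finset.filter_eq_empty_iff]
      rintro t _ ⟨h1, h2⟩
      push Not at h2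
      subst h2
      exact hk h1
  have hsame : (Finset.univ.filter fun t => g t = b t ∧ t ≠ i) =
      (Finset.univ.filter fun t => h t = b t ∧ t ≠ i) := by
    ext t
    simp only [Finset.mem_filter, Finset.mem_univ, true_and]
    constructor
    · rintro ⟨h1, h2⟩
      exact ⟨(hag t h2) ▸ h1, h2⟩
    · rintro ⟨h1, h2⟩
      exact ⟨(hag t h2).symm ▸ h1, h2⟩
  have e1 := hsplit g
  have e2 := hsplit h
  rw [hsame] at e1
  have hc' := decide_eq_decide.1 hc
  rw [e1, e2] at hc'
  have hx : (g i = b i ∧ h i ≠ b i) ∨ (g i ≠ b i ∧ h i = b i) := by
    rcases hg i with h1 | h1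
    · rcases hh i with h2 | h2
      · exact absurd (h1.trans h2.symm) hgi
      · exact Or.inr ⟨fun h3 => hgi (h3.trans h2.symm), h2⟩
    · rcases hh i with h2 | h2
      · exact Or.inl ⟨h1, fun h3 => hgi (h1.trans h3.symm)⟩
      · exact absurd (h1.trans h2.symm) hgi
  rcases hx with ⟨h1, h2⟩ | ⟨h1, h2⟩
  · rw [if_pos h1, if_neg h2, add_zero, Nat.odd_add_one] at hc'
    tauto
  · rw [if_neg h1, if_pos h2, add_zero, Nat.odd_add_one] at hc'
    tauto

theorem card_cube (a b : Wd p) (hab : ∀ i, a i ≠ b i) : (cube a b).card = 2 ^ p := by
  unfold cube
  rw [Fintype.card_piFinset, Finset.prod_congr rfl (g := fun _ => 2)]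
  · rw [Finset.prod_const, Finset.card_univ, Fintype.card_fin]
  · intro i _
    exact Finset.card_pair (hab i)

end

theorem pf_CUG : T_CUG := by
  intro p _ a b hp hab
  refine ⟨⟨a, mem_cube.2 fun i => Or.inl rfl⟩, lin_cube a b hab, ?_, ?_⟩
  · intro i k
    exact pla_of_prod hp _ i (prod_cube a b i) k
  · intro g hg h hh
    exact conn_cube a b h hh _ g hg le_rfl

theorem pf_CUC : T_CUC := by
  intro p _ a b hp hab
  refine ⟨?_, bip_cube a b⟩
  have hc : (cube a b).card = 4 * 2 ^ (p - 2) := by
    rw [card_cube a b hab, show (4 : ℕ) = 2 ^ 2 from rfl, ← pow_add]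
    congr 1
    omega
  rw [cw_of_prod (by omega) _ (lin_cube a b hab) (prod_cube a b) _ hc]
  push_cast
  ring

end Pool.Agent.H40.PMF
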