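import Pool.Agent.H40.PMF.RRG

/-!
# MP_def5ca_co: counting in sets of words which are products in every plane
-/

set_option autoImplicit false

open Pool.Agent.H54.PM

open scoped symmDiff

namespace Pool.Agent.H40.PMF

section

variable {p : ℕ} [NeZero p]

theorem rs_eq_iff {i : Fin p} {g h : Wd p} : rs i h = rs i g ↔ ag i g h := by
  constructor
  · intro H t ht
    have := congrFun H t
    simp only [rs, if_neg ht] at this
    exact this.symm
  · intro H
    funext t
    simp only [rs]
    split_ifs with ht
    · rfl
    · exact (H t ht).symm

theorem rs2_eq_iff {i : Fin p} {g h : Wd p} : rs2 i h = rs2 i g ↔ ag2 i g h := by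
  constructor
  · intro H t ht ht'
    have := congrFun H t
    have hn : ¬ (t = i ∨ t = i + 1) := fun h => h.elim ht ht'
    simp only [rs2, if_neg hn] at this
    exact this.symm
  · intro H
    funext t
    simp only [rs2]
    split_ifs with ht
    · rfl
    · exact (H t (fun h => ht (Or.inl h)) (fun h => ht (Or.inr h))).symm

theorem ne_succ (hp : 3 ≤ p) (i : Fin p) : i ≠ i + 1 := by
  intro h
  have h1 : (1 : Fin p) = 0 := by
    have := congrArg (fun x => x - i) h
    simpa using this.symm
  have h2 := congrArg Fin.val h1
  have h3 : (1 : Fin p).val = 1 % p := rfl
  rw [h3, Nat.mod_eq_of_lt (by omega)] at h2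
  simp at h2

/-- every line has two words -/
theorem card_rs (W : Finset (Wd p)) (hL : Lin W) (i : Fin p) :
    2 * (W.image (rs i)).card = W.card := by
  rw [Finset.card_eq_sum_card_image (rs i) W]
  rw [Finset.sum_congr rfl (g := fun _ => 2)]
  · rw [Finset.sum_const, smul_eq_mul, mul_comm]
  · intro b hb
    obtain ⟨g, hg, rfl⟩ := Finset.mem_image.1 hb
    obtain ⟨h, hh, hne, hag, hall⟩ := hL i g hg
    have : W.filter (fun k => rs i k = rs i g) = {g, h} := by
      ext k
      rw [Finset.mem_filter, Finset.mem_insert, Finset.mem_singleton, rs_eq_iff]
      constructor
      · rintro ⟨hk, hgk⟩
        exact hall k hk hgk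
      · rintro (rfl | rfl)
        · exact ⟨hg, fun _ _ => rfl⟩
        · exact ⟨hh, hag⟩
    rw [this, Finset.card_pair hne.symm]

/-- every plane has four words -/
theorem card_rs2 (hp : 3 ≤ p) (W : Finset (Wd p)) (hL : Lin W) (i : Fin p)
    (hprod : ∀ g ∈ W, ∀ h ∈ W, ag2 i g h → Function.update g i (h i) ∈ W) :
    4 * (W.image (rs2 i)).card = W.card := by
  rw [Finset.card_eq_sum_card_image (rs2 i) W]
  rw [Finset.sum_congr rfl (g := fun _ => 4)]
  · rw [Finset.sum_const, smul_eq_mul, mul_comm]
  · intro b hb
    obtain ⟨g, hg, rfl⟩ := Finset.mem_image.1 hb
    obtain ⟨h, hh, hne, hag, hall⟩ := hL i g hg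
    obtain ⟨h', hh', hne', hag', hall'⟩ := hL (i + 1) g hg
    have hi := ne_succ hp i
    -- the letters
    have hx : h i ≠ g i := by
      intro e
      apply hne
      funext t
      by_cases ht : t = i
      · subst ht
        exact e
      · exact (hag t ht).symm
    have hy : h' (i + 1) ≠ g (i + 1) := by
      intro e
      apply hne'
      funext t
      by_cases ht : t = i + 1
      · subst ht
        exact e
      · exact (hag' t ht).symm
    have hag2 : ag2 i h' h := by
      intro t ht ht'
      rw [← hag t ht, ← hag' t ht']
    have hm : Function.update h' i (h i) ∈ W := hprod h' hh' h hh hag2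
    have : W.filter (fun k => rs2 i k = rs2 i g) =
        {g, h, h', Function.update h' i (h i)} := by
      ext k
      rw [Finset.mem_filter, Finset.mem_insert, Finset.mem_insert, Finset.mem_insert,
        Finset.mem_singleton, rs2_eq_iff]
      constructor
      · rintro ⟨hk, hgk⟩
        have h1 : Function.update g i (k i) ∈ W := hprod g hg k hk hgk
        have h2 : Function.update k i (g i) ∈ W := hprod k hk g hg (ag2_symm hgk)
        have h3 : ag (i + 1) g (Function.update k i (g i)) := by
          intro t ht
          by_cases hti : t = i
          · subst hti
            rw [Function.update_self]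
          · rw [Function.update_of_ne hti]
            exact hgk t hti ht
        have c1 := hall _ h1 (ag_update i g (k i))
        have c2 := hall' _ h2 h3
        have e1 : k i = g i ∨ k i = h i := by
          rcases c1 with c | c
          · left
            have := congrFun c i
            rwa [Function.update_self] at this
          · right
            have := congrFun c i
            rwa [Function.update_self] at this
        have e2 : k (i + 1) = g (i + 1) ∨ k (i + 1) = h' (i + 1) := by
          rcases c2 with c | c
          · left
            have := congrFun c (i + 1)
            rwa [Function.update_of_ne hi.symm] at this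
          · right
            have := congrFun c (i + 1)
            rwa [Function.update_of_ne hi.symm] at this
        rcases e1 with e1 | e1
        · rcases e2 with e2 | e2
          · left
            funext t
            by_cases ht : t = i
            · subst ht
              exact e1
            · by_cases ht' : t = i + 1
              · subst ht'
                exact e2
              · exact (hgk t ht ht').symm
          · right; right; left
            funext t
            by_cases ht' : t = i + 1
            · subst ht'
              exact e2
            · by_cases ht : t = i
              · subst ht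
                rw [e1]
                exact hag' t ht'
              · rw [← hgk t ht ht']
                exact hag' t ht'
        · rcases e2 with e2 | e2
          · right; left
            funext t
            by_cases ht : t = i
            · subst ht
              exact e1
            · by_cases ht' : t = i + 1
              · subst ht'
                rw [e2]
                exact hag (i + 1) ht
              · rw [← hgk t ht ht']
                exact hag t ht
          · right; right; right
            funext t
            by_cases ht : t = i
            · subst ht
              rw [Function.update_self]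
              exact e1
            · rw [Function.update_of_ne ht]
              by_cases ht' : t = i + 1
              · subst ht'
                exact e2
              · rw [← hgk t ht ht']
                exact hag' t ht'
      · rintro (rfl | rfl | rfl | rfl)
        · exact ⟨hg, fun _ _ _ => rfl⟩
        · exact ⟨hh, fun t ht _ => hag t ht⟩
        · exact ⟨hh', fun t _ ht => hag' t ht⟩
        · refine ⟨hm, fun t ht ht' => ?_⟩
          rw [Function.update_of_ne ht]
          exact hag' t ht'
    rw [this]
    -- four different words
    have n1 : g ≠ h := hne.symm
    have n2 : g ≠ h' := hne'.symm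
    have n3 : g ≠ Function.update h' i (h i) := by
      intro e
      have := congrFun e i
      rw [Function.update_self] at this
      exact hx this.symm
    have n4 : h ≠ h' := by
      intro e
      apply hx
      rw [e]
      exact (hag' i hi).symm
    have n5 : h ≠ Function.update h' i (h i) := by
      intro e
      have := congrFun e (i + 1)
      rw [Function.update_of_ne hi.symm] at this
      rw [← hag (i + 1) hi.symm] at this
      exact hy this.symm
    have n6 : h' ≠ Function.update h' i (h i) := by
      intro e
      have := congrFun e i
      rw [Function.update_self, ← hag' i hi] at this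
      exact hx this.symm
    rw [Finset.card_insert_of_notMem, Finset.card_insert_of_notMem, Finset.card_pair n6]
    · rw [Finset.mem_insert, Finset.mem_singleton]
      rintro (e | e)
      · exact n4 e
      · exact n5 e
    · rw [Finset.mem_insert, Finset.mem_insert, Finset.mem_singleton]
      rintro (e | e | e)
      · exact n1 e
      · exact n2 e
      · exact n3 e

/-- the Euler characteristic -/
theorem cw_of_prod (hp : 3 ≤ p) (W : Finset (Wd p)) (hL : Lin W)
    (hprod : ∀ i, ∀ g ∈ W, ∀ h ∈ W, ag2 i g h → Function.update g i (h i) ∈ W) (c : ℕ)
    (hc : W.card = 4 * c) : cw W = -((c : ℤ) * ((p : ℤ) - 4)) := by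
  have hE : nE W = p * (2 * c) := by
    unfold nE
    rw [Finset.sum_congr rfl (g := fun _ => 2 * c)]
    · rw [Finset.sum_const, Finset.card_univ, Fintype.card_fin, smul_eq_mul]
    · intro i _
      have := card_rs W hL i
      omega
  have hV : nV W = p * c := by
    unfold nV
    rw [Finset.sum_congr rfl (g := fun _ => c)]
    · rw [Finset.sum_const, Finset.card_univ, Fintype.card_fin, smul_eq_mul]
    · intro i _
      have := card_rs2 hp W hL i (hprod i)
      omega
  unfold cw
  rw [hE, hV, hc]
  push_cast
  ring

end

end Pool.Agent.H40.PMF
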