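import Pool.Agent.H40.PMF.PW

/-!
# MP_def5ca_co: the Euler characteristic of `RR p m` (row RRC of the board pmf_modules)
-/

set_option autoImplicit false

open Pool.Agent.H54.PM

open scoped symmDiff

namespace Pool.Agent.H40.PMF

section

variable {p : ℕ} [NeZero p]

/-- the words of `RR p m` with the letter `c` at the place `2` -/
def slice (p : ℕ) [NeZero p] (m c : ℕ) : Finset (Wd p) :=
  Fintype.piFinset fun i : Fin p =>
    if i = 0 then {c, (c + 1) % m} else if i = tw p then {c} else {0, 1}

theorem mem_slice (hp : 5 ≤ p) (m c : ℕ) (g : Wd p) : g ∈ slice p m c ↔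
    (g 0 = c ∨ g 0 = (c + 1) % m) ∧ g (tw p) = c ∧
      ∀ i, i ≠ 0 → i ≠ tw p → g i = 0 ∨ g i = 1 := by
  unfold slice
  rw [Fintype.mem_piFinset]
  constructor
  · intro h
    refine ⟨?_, ?_, ?_⟩
    · simpa using h 0
    · have := h (tw p)
      rw [if_neg (tw_ne hp), if_pos rfl] at this
      exact Finset.mem_singleton.1 this
    · intro i hi hi'
      have := h i
      rw [if_neg hi, if_neg hi'] at this
      simpa using this
  · rintro ⟨h1, h2, h3⟩ i
    by_cases hi : i = 0
    · subst hi
      simpa using h1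
    · rw [if_neg hi]
      by_cases hi' : i = tw p
      · subst hi'
        simpa using h2
      · rw [if_neg hi']
        simpa using h3 i hi hi'

theorem RR_eq (hp : 5 ≤ p) (m : ℕ) (hm : 2 ≤ m) :
    RR p m = (Finset.range m).biUnion (slice p m) := by
  ext g
  rw [mem_RR hp, Finset.mem_biUnion]
  constructor
  · rintro ⟨_, h2, h3, h4⟩
    refine ⟨g (tw p), Finset.mem_range.2 h2, ?_⟩
    rw [mem_slice hp]
    exact ⟨h4, rfl, h3⟩
  · rintro ⟨c, hc, h⟩
    rw [mem_slice hp] at h
    obtain ⟨h1, h2, h3⟩ := h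
    have hc' := Finset.mem_range.1 hc
    refine ⟨?_, by omega, h3, ?_⟩
    · rcases h1 with h1 | h1
      · omega
      · rw [h1]
        exact Nat.mod_lt _ (by omega)
    · rw [h2]
      exact h1

theorem card_slice (hp : 5 ≤ p) (m c : ℕ) (hm : 2 ≤ m) (hc : c < m) :
    (slice p m c).card = 2 ^ (p - 1) := by
  unfold slice
  rw [Fintype.card_piFinset, Finset.prod_congr rfl (g := fun i => if i = tw p then 1 else 2)]
  · rw [Finset.prod_ite, Finset.prod_const_one, one_mul, Finset.prod_const]
    congr 1
    have : (Finset.univ.filter fun i : Fin p => ¬ i = tw p) = Finset.univ.erase (tw p) := by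
      ext i
      simp
    rw [this, Finset.card_erase_of_mem (Finset.mem_univ _), Finset.card_univ, Fintype.card_fin]
  · intro i _
    by_cases hi : i = 0
    · subst hi
      rw [if_pos rfl, if_neg (Ne.symm (tw_ne hp))]
      apply Finset.card_pair
      rw [succ_mod hm hc]
      split_ifs <;> omega
    · rw [if_neg hi]
      by_cases hi' : i = tw p
      · rw [if_pos hi', if_pos hi', Finset.card_singleton]
      · rw [if_neg hi', if_neg hi']
        rfl

theorem card_RR (hp : 5 ≤ p) (m : ℕ) (hm : 2 ≤ m) : (RR p m).card = m * 2 ^ (p - 1) := by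
  rw [RR_eq hp m hm, Finset.card_biUnion, Finset.sum_congr rfl (g := fun _ => 2 ^ (p - 1))]
  · rw [Finset.sum_const, Finset.card_range, smul_eq_mul]
  · intro c hc
    exact card_slice hp m c hm (Finset.mem_range.1 hc)
  · intro c _ c' _ hcc
    refine Finset.disjoint_left.2 ?_
    intro g hg hg'
    rw [mem_slice hp] at hg hg'
    exact hcc (hg.2.1.symm.trans hg'.2.1)

end

theorem pf_RRC : T_RRC := by
  intro p _ m hp hm
  have hc : (RR p m).card = 4 * (m * 2 ^ (p - 3)) := by
    rw [card_RR hp m hm]
    have : 2 ^ (p - 1) = 2 ^ (p - 3) * 4 := by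
      rw [show (4 : ℕ) = 2 ^ 2 from rfl, ← pow_add]
      congr 1
      omega
    rw [this]
    ring
  rw [cw_of_prod (by omega) _ (lin_RR hp m hm) (prod_RR hp m) _ hc]
  push_cast
  ring

end Pool.Agent.H40.PMF
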