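import Pool.Agent.H54.PM.Targets

/-!
# MP_def5ca_co: the sets `RR p m` are good (row RRG of the board pmf_modules)
-/

set_option autoImplicit false

open Pool.Agent.H54.PM

open scoped symmDiff

namespace Pool.Agent.H40.PMF

section

variable {p : ℕ} [NeZero p]

theorem ag_symm {i : Fin p} {g h : Wd p} (H : ag i g h) : ag i h g := fun t ht => (H t ht).symm

theorem ag2_symm {i : Fin p} {g h : Wd p} (H : ag2 i g h) : ag2 i h g :=
  fun t ht ht' => (H t ht ht').symm

theorem ag2_trans {i : Fin p} {g h k : Wd p} (H : ag2 i g h) (H' : ag2 i h k) : ag2 i g k :=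
  fun t ht ht' => (H t ht ht').trans (H' t ht ht')

theorem ag_update (i : Fin p) (g : Wd p) (a : ℕ) : ag i g (Function.update g i a) := by
  intro t ht
  rw [Function.update_of_ne ht]

/-- sets which are products in a plane -/
theorem pla_of_prod (hp : 3 ≤ p) (W : Finset (Wd p)) (i : Fin p)
    (hprod : ∀ g ∈ W, ∀ h ∈ W, ag2 i g h → Function.update g i (h i) ∈ W) (k : Wd p) :
    Pla W i k := by
  intro f hf g hg h hh hkf hkg hkh hgf hhf
  have hgh : ag2 i g h := ag2_trans (ag2_symm hkg) hkh
  have hgf2 : ag2 i g f := ag2_trans (ag2_symm hkg) hkf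
  have hx := hprod g hg h hh hgh
  have hy := hprod h hh g hg (ag2_symm hgh)
  have h1 : ag (i + 1) (Function.update g i (h i)) h := by
    intro t ht
    by_cases hti : t = i
    · subst hti
      rw [Function.update_self]
    · rw [Function.update_of_ne hti]
      exact hgh t hti ht
  have h2 : ag (i + 1) g (Function.update h i (g i)) := by
    intro t ht
    by_cases hti : t = i
    · subst hti
      rw [Function.update_self]
    · rw [Function.update_of_ne hti]
      exact hgh t hti ht
  by_cases hxf : Function.update g i (h i) = f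
  · by_cases hyf : Function.update h i (g i) = f
    · exfalso
      apply hgf
      funext t
      by_cases hti : t = i
      · subst hti
        rw [← hyf, Function.update_self]
      · rw [← hxf, Function.update_of_ne hti]
    · have s1 : st W i f g (Function.update h i (g i)) := ⟨hy, hyf, Or.inr h2⟩
      have s2 : st W i f (Function.update h i (g i)) h :=
        ⟨hh, hhf, Or.inl (ag_symm (ag_update i h (g i)))⟩
      exact (Relation.ReflTransGen.single s1).tail s2
  · have s1 : st W i f g (Function.update g i (h i)) := ⟨hx, hxf, Or.inl (ag_update i g (h i))⟩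
    have s2 : st W i f (Function.update g i (h i)) h := ⟨hh, hhf, Or.inr h1⟩
    exact (Relation.ReflTransGen.single s1).tail s2

/-- the place `2` -/
abbrev tw (p : ℕ) [NeZero p] : Fin p := Fin.ofNat p 2

theorem tw_val (hp : 5 ≤ p) : (tw p).val = 2 := by
  simp only [Fin.ofNat]
  exact Nat.mod_eq_of_lt (by omega)

theorem tw_ne (hp : 5 ≤ p) : tw p ≠ 0 := by
  intro h
  have := congrArg Fin.val h
  rw [tw_val hp] at this
  simp at this

theorem val_zero_iff (i : Fin p) : i.val = 0 ↔ i = 0 := by
  constructor
  · intro h
    apply Fin.ext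
    rw [h]
    rfl
  · intro h
    subst h
    rfl

theorem val_two_iff (hp : 5 ≤ p) (i : Fin p) : i.val = 2 ↔ i = tw p := by
  constructor
  · intro h
    apply Fin.ext
    rw [h, tw_val hp]
  · intro h
    subst h
    exact tw_val hp

theorem mem_RR (hp : 5 ≤ p) (m : ℕ) (g : Wd p) : g ∈ RR p m ↔
    g 0 < m ∧ g (tw p) < m ∧ (∀ i, i ≠ 0 → i ≠ tw p → g i = 0 ∨ g i = 1) ∧
      (g 0 = g (tw p) ∨ g 0 = (g (tw p) + 1) % m) := by
  unfold RR
  rw [Finset.mem_filter, Fintype.mem_piFinset]
  constructor
  · rintro ⟨h1, h2⟩
    refine ⟨?_, ?_, ?_, h2⟩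
    · have := h1 0
      rw [if_pos (Or.inl ((val_zero_iff _).2 rfl))] at this
      exact Finset.mem_range.1 this
    · have := h1 (tw p)
      rw [if_pos (Or.inr (tw_val hp))] at this
      exact Finset.mem_range.1 this
    · intro i hi hi'
      have := h1 i
      rw [if_neg] at this
      · simpa using this
      · rintro (h | h)
        · exact hi ((val_zero_iff i).1 h)
        · exact hi' ((val_two_iff hp i).1 h)
  · rintro ⟨h1, h2, h3, h4⟩
    refine ⟨?_, h4⟩
    intro i
    split_ifs with h
    · rcases h with h | h
      · rw [(val_zero_iff i).1 h]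
        exact Finset.mem_range.2 h1
      · rw [(val_two_iff hp i).1 h]
        exact Finset.mem_range.2 h2
    · have h5 : i ≠ 0 := fun h' => h (Or.inl ((val_zero_iff i).2 h'))
      have h6 : i ≠ tw p := fun h' => h (Or.inr ((val_two_iff hp i).2 h'))
      simpa using h3 i h5 h6

theorem one_val (hp : 5 ≤ p) : (1 : Fin p).val = 1 := by
  have : (1 : Fin p).val = 1 % p := rfl
  rw [this]
  exact Nat.mod_eq_of_lt (by omega)

theorem tw_ne_one (hp : 5 ≤ p) : tw p ≠ 0 + 1 := by
  intro h
  rw [zero_add] at h
  have := congrArg Fin.val h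
  rw [tw_val hp, one_val hp] at this
  omega

theorem zero_ne_tw_succ (hp : 5 ≤ p) : (0 : Fin p) ≠ tw p + 1 := by
  intro h
  have := congrArg Fin.val h
  rw [Fin.val_add, tw_val hp, one_val hp, Nat.mod_eq_of_lt (by omega)] at this
  simp at this

theorem prod_RR (hp : 5 ≤ p) (m : ℕ) (i : Fin p) : ∀ g ∈ RR p m, ∀ h ∈ RR p m, ag2 i g h →
    Function.update g i (h i) ∈ RR p m := by
  intro g hg h hh H
  rw [mem_RR hp] at hg hh ⊢
  obtain ⟨g1, g2, g3, g4⟩ := hg
  obtain ⟨h1, h2, h3, h4⟩ := hh
  by_cases hi : i = 0
  · subst hi
    have e : g (tw p) = h (tw p) := H (tw p) (tw_ne hp) (tw_ne_one hp)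
    rw [Function.update_self, Function.update_of_ne (tw_ne hp), e]
    refine ⟨h1, h2, ?_, h4⟩
    intro t ht ht'
    rw [Function.update_of_ne ht]
    exact g3 t ht ht'
  · by_cases hi' : i = tw p
    · subst hi'
      have e : g 0 = h 0 := H 0 (Ne.symm (tw_ne hp)) (zero_ne_tw_succ hp)
      rw [Function.update_self, Function.update_of_ne (Ne.symm (tw_ne hp)), e]
      refine ⟨h1, h2, ?_, h4⟩
      intro t ht ht'
      rw [Function.update_of_ne ht']
      exact g3 t ht ht'
    · rw [Function.update_of_ne (Ne.symm hi), Function.update_of_ne (Ne.symm hi')]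
      refine ⟨g1, g2, ?_, g4⟩
      intro t ht ht'
      by_cases hti : t = i
      · subst hti
        rw [Function.update_self]
        exact h3 t ht ht'
      · rw [Function.update_of_ne hti]
        exact g3 t ht ht'

/-- the successor modulo `m` -/
theorem succ_mod {m c : ℕ} (hm : 2 ≤ m) (hc : c < m) :
    ((c + 1) % m = if c + 1 = m then 0 else c + 1) := by
  split_ifs with h
  · rw [h, Nat.mod_self]
  · exact Nat.mod_eq_of_lt (by omega)

theorem eq_update_of_ag {i : Fin p} {g k : Wd p} (h : ag i g k) : k = Function.update g i (k i) := by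
  funext t
  by_cases ht : t = i
  · subst ht
    rw [Function.update_self]
  · rw [Function.update_of_ne ht]
    exact (h t ht).symm

theorem update_eq_self {i : Fin p} {g : Wd p} {a : ℕ} (h : a = g i) : Function.update g i a = g := by
  subst h
  exact Function.update_eq_self i g

theorem lin_RR (hp : 5 ≤ p) (m : ℕ) (hm : 2 ≤ m) : Lin (RR p m) := by
  -- general step: two letters
  have key : ∀ (i : Fin p) (g : Wd p) (a : ℕ), a ≠ g i → Function.update g i a ∈ RR p m →
      (∀ b : ℕ, Function.update g i b ∈ RR p m → b = g i ∨ b = a) →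
      ∃ h ∈ RR p m, h ≠ g ∧ ag i g h ∧ ∀ k ∈ RR p m, ag i g k → k = g ∨ k = h := by
    intro i g a ha hmem hall
    refine ⟨_, hmem, ?_, ag_update i g a, ?_⟩
    · intro h
      apply ha
      have := congrFun h i
      rwa [Function.update_self] at this
    · intro k hk hgk
      have e := eq_update_of_ag hgk
      have hk' : Function.update g i (k i) ∈ RR p m := by rwa [← e]
      rcases hall (k i) hk' with h | h
      · left
        rw [e]
        exact update_eq_self h
      · right
        rw [e, h]
  intro i g hg
  have hg' := (mem_RR hp m g).1 hg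
  obtain ⟨g1, g2, g3, g4⟩ := hg'
  by_cases hi : i = 0
  · subst hi
    rcases Nat.lt_or_ge (g (tw p) + 1) m with hc | hc
    · have e : (g (tw p) + 1) % m = g (tw p) + 1 := Nat.mod_eq_of_lt hc
      rcases g4 with h4 | h4
      · apply key 0 g (g (tw p) + 1) (by omega)
        · rw [mem_RR hp, Function.update_self, Function.update_of_ne (tw_ne hp)]
          refine ⟨hc, g2, ?_, Or.inr e.symm⟩
          intro t ht ht'
          rw [Function.update_of_ne ht]
          exact g3 t ht ht'
        · intro b hb
          rw [mem_RR hp, Function.update_self, Function.update_of_ne (tw_ne hp)] at hb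
          obtain ⟨_, _, _, hb4⟩ := hb
          rw [e] at hb4
          omega
      · rw [e] at h4
        apply key 0 g (g (tw p)) (by omega)
        · rw [mem_RR hp, Function.update_self, Function.update_of_ne (tw_ne hp)]
          refine ⟨g2, g2, ?_, Or.inl rfl⟩
          intro t ht ht'
          rw [Function.update_of_ne ht]
          exact g3 t ht ht'
        · intro b hb
          rw [mem_RR hp, Function.update_self, Function.update_of_ne (tw_ne hp)] at hb
          obtain ⟨_, _, _, hb4⟩ := hb
          rw [e] at hb4
          omega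
    · have e' : g (tw p) + 1 = m := by omega
      have e : (g (tw p) + 1) % m = 0 := by rw [e', Nat.mod_self]
      rcases g4 with h4 | h4
      · apply key 0 g 0 (by omega)
        · rw [mem_RR hp, Function.update_self, Function.update_of_ne (tw_ne hp)]
          refine ⟨by omega, g2, ?_, Or.inr e.symm⟩
          intro t ht ht'
          rw [Function.update_of_ne ht]
          exact g3 t ht ht'
        · intro b hb
          rw [mem_RR hp, Function.update_self, Function.update_of_ne (tw_ne hp)] at hb
          obtain ⟨_, _, _, hb4⟩ := hb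
          rw [e] at hb4
          omega
      · rw [e] at h4
        apply key 0 g (g (tw p)) (by omega)
        · rw [mem_RR hp, Function.update_self, Function.update_of_ne (tw_ne hp)]
          refine ⟨g2, g2, ?_, Or.inl rfl⟩
          intro t ht ht'
          rw [Function.update_of_ne ht]
          exact g3 t ht ht'
        · intro b hb
          rw [mem_RR hp, Function.update_self, Function.update_of_ne (tw_ne hp)] at hb
          obtain ⟨_, _, _, hb4⟩ := hb
          rw [e] at hb4
          omega
  · by_cases hi' : i = tw p
    · subst hi'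
      have n0 := Ne.symm (tw_ne hp)
      -- the letters `b` which are allowed
      have allowed : ∀ b : ℕ, Function.update g (tw p) b ∈ RR p m ↔
          b < m ∧ (g 0 = b ∨ g 0 = (b + 1) % m) := by
        intro b
        rw [mem_RR hp, Function.update_self, Function.update_of_ne n0]
        constructor
        · rintro ⟨_, h2, _, h4⟩
          exact ⟨h2, h4⟩
        · rintro ⟨h2, h4⟩
          refine ⟨g1, h2, ?_, h4⟩
          intro t ht ht'
          rw [Function.update_of_ne ht']
          exact g3 t ht ht'
      have hall : ∀ b : ℕ, b < m → (g 0 = b ∨ g 0 = (b + 1) % m) →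
          b = g 0 ∨ b = if g 0 = 0 then m - 1 else g 0 - 1 := by
        intro b hb h
        rw [succ_mod hm hb] at h
        split_ifs at h ⊢ <;> omega
      have hpr : (if g 0 = 0 then m - 1 else g 0 - 1) < m ∧
          g 0 = ((if g 0 = 0 then m - 1 else g 0 - 1) + 1) % m := by
        have hlt : (if g 0 = 0 then m - 1 else g 0 - 1) < m := by split_ifs <;> omega
        refine ⟨hlt, ?_⟩
        rw [succ_mod hm hlt]
        split_ifs <;> omega
      have hne : (if g 0 = 0 then m - 1 else g 0 - 1) ≠ g 0 := by split_ifs <;> omega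
      rcases hall (g (tw p)) g2 g4 with h | h
      · apply key (tw p) g (if g 0 = 0 then m - 1 else g 0 - 1) (by rw [h]; exact hne)
        · exact (allowed _).2 ⟨hpr.1, Or.inr hpr.2⟩
        · intro b hb
          rw [allowed] at hb
          rcases hall b hb.1 hb.2 with h' | h'
          · left
            rw [h', h]
          · right
            exact h'
      · apply key (tw p) g (g 0) (by rw [h]; exact Ne.symm hne)
        · exact (allowed _).2 ⟨g1, Or.inl rfl⟩
        · intro b hb
          rw [allowed] at hb
          rcases hall b hb.1 hb.2 with h' | h'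
          · right
            exact h'
          · left
            rw [h', h]
    · have e3 := g3 i hi hi'
      have allowed : ∀ b : ℕ, Function.update g i b ∈ RR p m ↔ b = 0 ∨ b = 1 := by
        intro b
        rw [mem_RR hp, Function.update_of_ne (Ne.symm hi), Function.update_of_ne (Ne.symm hi')]
        constructor
        · rintro ⟨_, _, h3, _⟩
          have := h3 i hi hi'
          rwa [Function.update_self] at this
        · intro hb
          refine ⟨g1, g2, ?_, g4⟩
          intro t ht ht'
          by_cases hti : t = i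
          · subst hti
            rw [Function.update_self]
            exact hb
          · rw [Function.update_of_ne hti]
            exact g3 t ht ht'
      apply key i g (1 - g i) (by omega)
      · rw [allowed]
        omega
      · intro b hb
        rw [allowed] at hb
        omega

theorem zero_mem_RR (hp : 5 ≤ p) (m : ℕ) (hm : 2 ≤ m) : (fun _ => 0 : Wd p) ∈ RR p m := by
  rw [mem_RR hp]
  exact ⟨by omega, by omega, fun _ _ _ => Or.inl rfl, Or.inl rfl⟩

theorem sum_update_lt {g : Wd p} {i : Fin p} {a : ℕ} (h : a < g i) :
    ∑ t, (Function.update g i a) t < ∑ t, g t := by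
  apply Finset.sum_lt_sum
  · intro t _
    by_cases ht : t = i
    · subst ht
      rw [Function.update_self]
      exact h.le
    · rw [Function.update_of_ne ht]
  · exact ⟨i, Finset.mem_univ _, by rw [Function.update_self]; exact h⟩

theorem down_RR (hp : 5 ≤ p) (m : ℕ) (hm : 2 ≤ m) (g : Wd p) (hg : g ∈ RR p m)
    (h0 : g ≠ fun _ => 0) : ∃ (i : Fin p) (a : ℕ), a < g i ∧ Function.update g i a ∈ RR p m := by
  have hg' := (mem_RR hp m g).1 hg
  obtain ⟨g1, g2, g3, g4⟩ := hg'
  have n0 := Ne.symm (tw_ne hp)
  by_cases hb : ∃ i, i ≠ 0 ∧ i ≠ tw p ∧ g i ≠ 0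
  · obtain ⟨i, hi, hi', hgi⟩ := hb
    refine ⟨i, 0, by omega, ?_⟩
    rw [mem_RR hp, Function.update_of_ne (Ne.symm hi), Function.update_of_ne (Ne.symm hi')]
    refine ⟨g1, g2, ?_, g4⟩
    intro t ht ht'
    by_cases hti : t = i
    · subst hti
      rw [Function.update_self]
      exact Or.inl rfl
    · rw [Function.update_of_ne hti]
      exact g3 t ht ht'
  · push Not at hb
    rcases g4 with h4 | h4
    · by_cases hz : g 0 = 0
      · exfalso
        apply h0
        funext t
        by_cases ht : t = 0
        · subst ht
          exact hz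
        · by_cases ht' : t = tw p
          · subst ht'
            exact h4 ▸ hz
          · exact hb t ht ht'
      · refine ⟨tw p, g 0 - 1, by omega, ?_⟩
        rw [mem_RR hp, Function.update_self, Function.update_of_ne n0]
        refine ⟨g1, by omega, ?_, Or.inr ?_⟩
        · intro t ht ht'
          rw [Function.update_of_ne ht']
          exact g3 t ht ht'
        · rw [Nat.sub_add_cancel (by omega), Nat.mod_eq_of_lt g1]
    · rw [succ_mod hm g2] at h4
      split_ifs at h4 with hc
      · refine ⟨tw p, 0, by omega, ?_⟩
        rw [mem_RR hp, Function.update_self, Function.update_of_ne n0]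
        refine ⟨g1, by omega, ?_, Or.inl h4⟩
        intro t ht ht'
        rw [Function.update_of_ne ht']
        exact g3 t ht ht'
      · refine ⟨0, g (tw p), by omega, ?_⟩
        rw [mem_RR hp, Function.update_self, Function.update_of_ne (tw_ne hp)]
        refine ⟨g2, g2, ?_, Or.inl rfl⟩
        intro t ht ht'
        rw [Function.update_of_ne ht]
        exact g3 t ht ht'

theorem conn_zero_RR (hp : 5 ≤ p) (m : ℕ) (hm : 2 ≤ m) : ∀ (n : ℕ) (g : Wd p), g ∈ RR p m →
    ∑ t, g t ≤ n → Relation.ReflTransGen (mv (RR p m)) g (fun _ => 0) ∧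
      Relation.ReflTransGen (mv (RR p m)) (fun _ => 0) g := by
  intro n
  induction n with
  | zero =>
    intro g hg hs
    by_cases h0 : g = fun _ => 0
    · subst h0
      exact ⟨Relation.ReflTransGen.refl, Relation.ReflTransGen.refl⟩
    · obtain ⟨i, a, ha, _⟩ := down_RR hp m hm g hg h0
      have := sum_update_lt ha
      omega
  | succ n ih =>
    intro g hg hs
    by_cases h0 : g = fun _ => 0
    · subst h0
      exact ⟨Relation.ReflTransGen.refl, Relation.ReflTransGen.refl⟩
    · obtain ⟨i, a, ha, hmem⟩ := down_RR hp m hm g hg h0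
      have hlt := sum_update_lt ha
      obtain ⟨c1, c2⟩ := ih _ hmem (by omega)
      have s1 : mv (RR p m) g (Function.update g i a) := ⟨hmem, i, ag_update i g a⟩
      have s2 : mv (RR p m) (Function.update g i a) g := ⟨hg, i, ag_symm (ag_update i g a)⟩
      exact ⟨Relation.ReflTransGen.head s1 c1, c2.tail s2⟩

/-- `RR p m` is good -/
theorem good_RR (hp : 5 ≤ p) (m : ℕ) (hm : 2 ≤ m) : Good (RR p m) := by
  refine ⟨⟨_, zero_mem_RR hp m hm⟩, lin_RR hp m hm, ?_, ?_⟩
  · intro i k
    exact pla_of_prod (by omega) _ i (prod_RR hp m i) k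
  · intro g hg h hh
    obtain ⟨c1, _⟩ := conn_zero_RR hp m hm _ g hg le_rfl
    obtain ⟨_, c2⟩ := conn_zero_RR hp m hm _ h hh le_rfl
    exact c1.trans c2

end

theorem pf_RRG : T_RRG := fun _ _ m hp hm => good_RR hp m hm

end Pool.Agent.H40.PMF
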